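import Mathlib
import Pool.Agent.H16.Edit

set_option autoImplicit false

namespace Pool.Agent.Results.MP_a407c4_co.Counter

open Pool.Agent.H16.Edit

/-- Over the binary alphabet, with strings of length 8, some `(3,3)`-guaranteed set is not
`(4,4)`-guaranteed. -/
theorem result :
    ∃ B : Set (List Bool), (∀ v ∈ B, v.length = 8) ∧ Guaranteed 8 3 3 B ∧ ¬ Guaranteed 8 4 4 B :=
  ⟨{v | v ∈ BL}, fun v hv => (c3 v hv).1, g3, g4⟩

end Pool.Agent.Results.MP_a407c4_co.Counter
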